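import Pool.Agent.helper69.DH.SpecR

/-! # Part R, row rRIV (helper18) -/

set_option autoImplicit false

open Filter Topology MeasureTheory
open scoped commutatorElement

namespace Pool.Agent.helper90.DH

open Pool.Agent.helper64.D2

theorem rRIV_upd (A : ℕ → Finset ℤ) (S t : ℕ) (h : Finset ℤ) (ht : t < S) : Function.update A S h t = A t :=
  Function.update_of_ne (ne_of_lt ht) h A

/-- A family extended by one level. -/
theorem rRIV_fam (A : ℕ → Finset ℤ) (S1 S : ℕ) (h : Finset ℤ) (hS : S1 ≤ S) (h0 : ∀ t < S1, A t = ∅) (h1 : ∀ t, S1 ≤ t → t < S → ∀ m ∈ A t, m ∈ rTg t ∧ ∀ t' < t, m / 2 ^ (t - t') ∉ A t')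
    (h2 : ∀ m ∈ h, m ∈ rTg S ∧ ∀ t < S, m / 2 ^ (S - t) ∉ A t) : rFam (Function.update A S h) S1 S := by
  refine ⟨fun t ht => ?_, fun t ht => ?_, fun t ht t' ht' n hn => ?_⟩
  · rw [rRIV_upd A S t h (lt_of_lt_of_le ht hS)]
    exact h0 t ht
  · rcases lt_or_eq_of_le ht with h3 | h3
    · rw [rRIV_upd A S t h h3]
      intro m hm
      by_cases h4 : t < S1
      · rw [h0 t h4] at hm
        exact absurd hm (Finset.notMem_empty m)
      · exact (h1 t (not_lt.mp h4) h3 m hm).1
    · rw [h3, Function.update_self]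
      intro m hm
      exact (h2 m hm).1
  · rcases lt_or_eq_of_le ht with h3 | h3
    · rw [rRIV_upd A S t h h3] at hn
      rw [rRIV_upd A S t' h (ht'.trans h3)]
      by_cases h4 : t < S1
      · rw [h0 t h4] at hn
        exact absurd hn (Finset.notMem_empty n)
      · exact (h1 t (not_lt.mp h4) h3 n hn).2 t' ht'
    · subst h3
      rw [Function.update_self] at hn
      rw [rRIV_upd A t t' h ht']
      exact (h2 n hn).2 t' ht'

/-- row rRIV. -/
theorem rRIV (hBAS : rBAS_stmt) (hMON : rMON_stmt) : rRIV_stmt := by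
  intro P S hR D h k hS1 hOK hh hk hD
  obtain ⟨-, -, -, -, -, -, -, -, hST, -⟩ := hBAS
  obtain ⟨⟨-, -, -, hs0, hs1, -⟩, -⟩ := hR
  have hFP : ∀ t, P.S1 ≤ t → t < S → rFP P D.H D.K t := fun t h1 h2 => ((hOK t h2).2 h1).1
  have hST' : ∀ t, P.S1 ≤ t → ∀ n ∈ rSg t, n ∈ rTg t := fun t h1 n hn => (hST t n (by omega) hn).1
  have hmon : ∀ t, t < S → ∀ t', t' ≤ t → D.H t' ⊆ Function.update D.H S h t' ∧ D.K t' ⊆ Function.update D.K S k t' := by
    intro t ht t' ht'
    rw [rRIV_upd D.H S t' h (lt_of_le_of_lt ht' ht), rRIV_upd D.K S t' k (lt_of_le_of_lt ht' ht)]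
    exact ⟨subset_rfl, subset_rfl⟩
  refine ⟨?_, ?_, ?_, ?_, hD⟩
  · apply rRIV_fam D.H P.S1 S h hS1
    · intro t ht
      exact ((hOK t (lt_of_lt_of_le ht hS1)).1 ht).1
    · intro t h1 h2 m hm
      have h3 := ((hFP t h1 h2).1 m).mp hm
      exact ⟨h3.1, h3.2.1⟩
    · intro m hm
      exact ⟨(hh m hm).1, (hh m hm).2.1⟩
  · apply rRIV_fam D.K P.S1 S k hS1
    · intro t ht
      exact ((hOK t (lt_of_lt_of_le ht hS1)).1 ht).2
    · intro t h1 h2 n hn
      have h3 := ((hFP t h1 h2).2 n).mp hn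
      exact ⟨hST' t h1 n h3.1, h3.2.1⟩
    · intro n hn
      exact ⟨hST' S hS1 n (hk n hn).1, (hk n hn).2.1⟩
  · intro t ht m hm
    rcases lt_or_eq_of_le ht with h3 | h3
    · rw [rRIV_upd D.H S t h h3] at hm
      by_cases h4 : t < P.S1
      · rw [((hOK t h3).1 h4).1] at hm
        exact absurd hm (Finset.notMem_empty m)
      · have h5 := ((hFP t (not_lt.mp h4) h3).1 m).mp hm
        obtain ⟨m1, m2, -⟩ := hMON P D.H D.K (Function.update D.H S h) (Function.update D.K S k) 0 t m (hmon t h3)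
        rcases h5.2.2 with h6 | h6 | h6
        · exact Or.inl h6
        · exact Or.inr (Or.inl (m1 h6))
        · exact Or.inr (Or.inr (m2 h6))
    · subst h3
      rw [Function.update_self] at hm
      exact (hh m hm).2.2
  · intro t ht n hn
    rcases lt_or_eq_of_le ht with h3 | h3
    · rw [rRIV_upd D.K S t k h3] at hn
      by_cases h4 : t < P.S1
      · rw [((hOK t h3).1 h4).2] at hn
        exact absurd hn (Finset.notMem_empty n)
      · have h5 := ((hFP t (not_lt.mp h4) h3).2 n).mp hn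
        obtain ⟨-, -, m3, -⟩ := hMON P D.H D.K (Function.update D.H S h) (Function.update D.K S k) 0 t n (hmon t h3)
        exact ⟨h5.1, m3 h5.2.2⟩
    · subst h3
      rw [Function.update_self] at hn
      exact ⟨(hk n hn).1, (hk n hn).2.2⟩

end Pool.Agent.helper90.DH
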