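import Pool.Agent.helper69.DH.SpecR2

/-! # Part R, row rSLV (helper18) -/

set_option autoImplicit false

open Filter Topology MeasureTheory
open scoped commutatorElement

namespace Pool.Agent.helper90.DH

open Pool.Agent.helper64.D2

/-- row rSLV. -/
theorem rSLV : rSLV_stmt := by
  classical
  intro q m0 s σ c g B hB hS hg y hy X hX
  obtain ⟨hg1, hg2⟩ := hg
  have hs : (0 : ℝ) < 2 ^ s := by positivity
  have hσ : (0 : ℝ) < 2 ^ σ := by positivity
  have key : ∀ i ∈ Finset.range q, |g (X i) - g (ev (c i) y)| ≤ (if i ∈ near q c s σ y then 2 * B else 0) + B * (2 ^ s / 2 ^ σ) := by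
    intro i hi
    have hiq : i < q := Finset.mem_range.mp hi
    have hnn : 0 ≤ B * ((2 : ℝ) ^ s / 2 ^ σ) := by positivity
    by_cases hn : i ∈ near q c s σ y
    · rw [if_pos hn]
      have h1 := hg1 (X i)
      have h2 := hg1 (ev (c i) y)
      have h3 : |g (X i) - g (ev (c i) y)| ≤ |g (X i)| + |g (ev (c i) y)| := abs_sub _ _
      linarith
    · rw [if_neg hn, zero_add]
      have hn2 : ∀ k : ℤ, 1 / (2 : ℝ) ^ σ < |ev (c i) y - (k : ℝ) / 2 ^ s| := by
        intro k
        by_contra hc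
        exact hn (Finset.mem_filter.mpr ⟨hi, k, not_lt.mp hc⟩)
      have hd := hX i hiq
      have f1 := Int.floor_le ((2 : ℝ) ^ s * ev (c i) y)
      have f2 := Int.lt_floor_add_one ((2 : ℝ) ^ s * ev (c i) y)
      have k1 := hn2 ⌊(2 : ℝ) ^ s * ev (c i) y⌋
      have k2 := hn2 (⌊(2 : ℝ) ^ s * ev (c i) y⌋ + 1)
      have c1 : (⌊(2 : ℝ) ^ s * ev (c i) y⌋ : ℝ) / 2 ^ s ≤ ev (c i) y := by
        rw [div_le_iff₀ hs]
        linarith
      have c2 : ev (c i) y < ((⌊(2 : ℝ) ^ s * ev (c i) y⌋ : ℝ) + 1) / 2 ^ s := by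
        rw [lt_div_iff₀ hs]
        linarith
      rw [abs_of_nonneg (by linarith)] at k1
      push_cast at k2
      rw [abs_of_nonpos (by linarith)] at k2
      rw [abs_le] at hd
      have m1 : ev (c i) y ∈ cell s ⌊(2 : ℝ) ^ s * ev (c i) y⌋ := ⟨c1, c2⟩
      have m2 : X i ∈ cell s ⌊(2 : ℝ) ^ s * ev (c i) y⌋ := ⟨by linarith [hd.1], by linarith [hd.2]⟩
      have h4 := hg2 _ (X i) m2 (ev (c i) y) m1
      have h5 : |X i - ev (c i) y| ≤ 1 / 2 ^ σ := hX i hiq
      calc |g (X i) - g (ev (c i) y)| ≤ B * 2 ^ s * |X i - ev (c i) y| := h4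
        _ ≤ B * 2 ^ s * (1 / 2 ^ σ) := mul_le_mul_of_nonneg_left h5 (by positivity)
        _ = B * (2 ^ s / 2 ^ σ) := by ring
  have hcard : ((near q c s σ y).card : ℝ) ≤ m0 := by exact_mod_cast hS y hy
  have hfil : (Finset.range q).filter (fun i => i ∈ near q c s σ y) = near q c s σ y := by
    ext i
    rw [Finset.mem_filter]
    constructor
    · intro h
      exact h.2
    · intro h
      exact ⟨(Finset.mem_filter.mp h).1, h⟩
  calc ∑ i ∈ Finset.range q, |g (X i) - g (ev (c i) y)| ≤ ∑ i ∈ Finset.range q, ((if i ∈ near q c s σ y then 2 * B else 0) + B * (2 ^ s / 2 ^ σ)) := Finset.sum_le_sum key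
    _ = (near q c s σ y).card * (2 * B) + q * (B * (2 ^ s / 2 ^ σ)) := by
        rw [Finset.sum_add_distrib, Finset.sum_const, Finset.card_range, nsmul_eq_mul, ← Finset.sum_filter, hfil, Finset.sum_const, nsmul_eq_mul]
    _ ≤ m0 * (2 * B) + q * (B * (2 ^ s / 2 ^ σ)) := by
        have := mul_le_mul_of_nonneg_right hcard (by linarith : (0 : ℝ) ≤ 2 * B)
        linarith
    _ = B * (2 * m0 + q * (2 ^ s / 2 ^ σ)) := by ring

end Pool.Agent.helper90.DH
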